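import Pool.Agent.Helper95.AF.Defs
import Pool.Agent.Helper82.AN.Interp
import Pool.Agent.Helper82.AN.Eta

/-! # Project AF: moving the force at consecutive times of one window (blocks `shift5`, `shift1`) -/

set_option autoImplicit false
open MeasureTheory Real Set Filter Topology
open scoped ENNReal

namespace Pool.Agent.Helper19.AF

open Pool.Agent.Helper18.UC (nn LL sqo rep toT)
open Pool.Agent.Helper46.QP (TT Td)
open Pool.Agent.Helper82.AN (Ik Ow lawL wt bas eta Hw sq SepR)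
open Pool.Agent.Helper95.AF

variable {d : ℕ}

instance un_prob : IsProbabilityMeasure un := by
  refine ⟨?_⟩
  unfold un
  rw [Measure.restrict_apply MeasurableSet.univ, univ_inter, Real.volume_Icc]
  norm_num

instance un5_prob : IsProbabilityMeasure un5 := by
  unfold un5
  infer_instance

theorem un_ae : ∀ᵐ t ∂un, |t| ≤ 1 := by
  unfold un
  filter_upwards [ae_restrict_mem measurableSet_Icc] with t ht
  rw [abs_of_nonneg ht.1]
  exact ht.2

theorem un5_ae : ∀ᵐ t ∂un5, ∀ i, |t i| ≤ 1 := by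
  rw [ae_all_iff]
  intro i
  have h := (Measure.quasiMeasurePreserving_eval (fun _ : Fin 5 => un) i).ae un_ae
  exact h

/-- one move: the coefficient vector for the point with index `(l, j₀)` -/
private theorem vec19 {γ : ℝ} (hγ : 0 < γ) {q s : ℝ} (hq : q ≠ 0) {α : Td d} {ρ : ℝ}
    {n M N p : ℕ} {β : Fin M → Td d} (hρ : 0 < ρ) (hS : SepR α ρ n M β) (hN : 1 ≤ N) (hp : 1 ≤ p)
    (hint : 2 * ((M * n : ℕ) : ℝ) ≤ (2 * N * ρ) ^ (2 * p)) (hs : 0 ≤ s)
    (hs1 : s ≤ |q| * Real.exp (-((p * N : ℝ) ^ γ)) / 20) (l : Fin M) (j₀ : Fin n) :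
    ∃ (S : Finset (Ik d)) (v : Ow d), (∀ i ∉ S, v i = 0) ∧ ∑ i ∈ S, |v i| ≤ 1 / 5 ∧
      ∀ (l' : Fin M) (j : Fin n), q * ∑ i ∈ S, wt γ i * v i * bas i (β l' + (j : ℕ) • α) =
        if l' = l ∧ j = j₀ then s else 0 := by
  have hcard : 2 * (Fintype.card (Fin M × Fin n) : ℝ) ≤ (2 * N * ρ) ^ (2 * p) := by
    rw [Fintype.card_prod, Fintype.card_fin, Fintype.card_fin]
    exact hint
  obtain ⟨S, c, h0, h1, h2, h3, h4⟩ := Pool.Agent.Helper82.AN.interp
    (x := fun y : Fin M × Fin n => β y.1 + (y.2 : ℕ) • α) hN hp hρ hS hcard (l, j₀)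
  have hq0 : 0 < |q| := abs_pos.2 hq
  refine ⟨S, fun i => s / q * c i / wt γ i, fun i hi => ?_, ?_, fun l' j => ?_⟩
  · show s / q * c i / wt γ i = 0
    rw [h0 i hi, mul_zero, zero_div]
  · have h5 : ∀ i ∈ S, |s / q * c i / wt γ i| ≤ 1 / 20 * |c i| := by
      intro i hi
      have hw := Pool.Agent.Helper82.AN.wt_pos γ i
      have h6 : Real.exp (-((p * N : ℝ) ^ γ)) ≤ wt γ i := by
        unfold wt
        exact Real.exp_le_exp.2 (neg_le_neg (Real.rpow_le_rpow (norm_nonneg _) (h1 i hi) hγ.le))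
      rw [abs_div, abs_mul, abs_div, abs_of_nonneg hs, abs_of_pos hw, div_le_iff₀ hw, div_mul_eq_mul_div,
        div_le_iff₀ hq0]
      calc s * |c i| ≤ (|q| * Real.exp (-((p * N : ℝ) ^ γ)) / 20) * |c i| :=
            mul_le_mul_of_nonneg_right hs1 (abs_nonneg _)
        _ ≤ (|q| * wt γ i / 20) * |c i| := by gcongr
        _ = _ := by ring
    refine (Finset.sum_le_sum h5).trans ?_
    rw [← Finset.mul_sum]
    linarith
  · have h5 : ∀ i ∈ S, wt γ i * (s / q * c i / wt γ i) * bas i (β l' + (j : ℕ) • α) =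
        s / q * (c i * bas i (β l' + (j : ℕ) • α)) := by
      intro i _
      rw [mul_div_cancel₀ _ (Pool.Agent.Helper82.AN.wt_pos γ i).ne']
      ring
    rw [Finset.sum_congr rfl h5, ← Finset.mul_sum]
    by_cases h : l' = l ∧ j = j₀
    · rw [if_pos h, h.1, h.2, h3, mul_one, mul_div_cancel₀ _ hq]
    · rw [if_neg h]
      have h6 := h4 (l', j) (fun h7 => h ⟨(Prod.mk.inj h7).1, (Prod.mk.inj h7).2⟩)
      rw [h6, mul_zero, mul_zero]

/-- the general move: `K ≤ 5` consecutive times -/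
private theorem shiftG19 {γ : ℝ} (hγ : 0 < γ) {k : ℕ} {e : Fin k → Td d → ℝ} {U : Fin (k + 1) → ℝ} (hU : U 0 ≠ 0)
    {α : Td d} {ρ s : ℝ} {n M N p : ℕ} {β : Fin M → Td d} (hρ : 0 < ρ) (hS : SepR α ρ n M β) (hN : 1 ≤ N) (hp : 1 ≤ p)
    (hint : 2 * ((M * n : ℕ) : ℝ) ≤ (2 * N * ρ) ^ (2 * p)) (hs : 0 ≤ s)
    (hs1 : s ≤ |U 0| * Real.exp (-((p * N : ℝ) ^ γ)) / 20) (l : Fin M) (m K : ℕ) (hK : K ≤ 5) (hm : m + K ≤ n)
    {T : Type*} [MeasurableSpace T] (τ : Measure T) [IsProbabilityMeasure τ] (g : Fin K → T → ℝ)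
    (hg : ∀ i, Measurable (g i)) (hg1 : ∀ᵐ t ∂τ, ∀ i, |g i t| ≤ 1) :
    ∃ S : Ow d → T → Ow d, (Measurable fun q : Ow d × T => S q.1 q.2) ∧
      (∀ G : Ow d → ℝ≥0∞, Measurable G →
        ∫⁻ w, G w ∂lawL d ≤ ENNReal.ofReal (Real.exp 1) * ∫⁻ w, ∫⁻ t, G (S w t) ∂τ ∂lawL d) ∧
      ∀ w, Hw γ w ≠ ∞ → ∀ t, ∀ l' : Fin M, ∀ j < n, sq α (frc γ e U (S w t)) (β l') j =
        sq α (frc γ e U w) (β l') j + ∑ i : Fin K, if l' = l ∧ j = m + i then s * g i t else 0 := by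
  classical
  have hlt : ∀ i : Fin K, m + (i : ℕ) < n := fun i => by have := i.isLt; omega
  have H := fun i : Fin K => vec19 hγ hU hρ hS hN hp hint hs hs1 l ⟨m + i, hlt i⟩
  choose S v hv0 hv1 hv2 using H
  obtain ⟨W, hW⟩ : ∃ W : Finset (Ik d), W = Finset.univ.biUnion S := ⟨_, rfl⟩
  have hSW : ∀ i, S i ⊆ W := fun i => by
    rw [hW]
    exact Finset.subset_biUnion_of_mem S (Finset.mem_univ i)
  -- the vectors as sums over `W`
  have hv0' : ∀ (i : Fin K), ∀ x ∉ W, v i x = 0 := fun i x hx => hv0 i x fun h => hx (hSW i h)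
  have hv1' : ∀ i : Fin K, ∑ x ∈ W, |v i x| ≤ 1 / 5 := fun i => by
    rw [← Finset.sum_subset (hSW i) fun x _ hx => by rw [hv0 i x hx, abs_zero]]
    exact hv1 i
  have hv2' : ∀ (i : Fin K) (l' : Fin M) (j : Fin n), U 0 * ∑ x ∈ W, wt γ x * v i x * bas x (β l' + (j : ℕ) • α) =
      if l' = l ∧ j = (⟨m + i, hlt i⟩ : Fin n) then s else 0 := fun i l' j => by
    rw [← Finset.sum_subset (hSW i) fun x _ hx => by rw [hv0 i x hx, mul_zero, zero_mul]]
    exact hv2 i l' j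
  obtain ⟨V, hV⟩ : ∃ V : T → Ow d, V = fun t => ∑ i : Fin K, g i t • v i := ⟨_, rfl⟩
  have hVa : ∀ t x, V t x = ∑ i : Fin K, g i t * v i x := fun t x => by
    rw [hV]
    simp only [Finset.sum_apply, Pi.smul_apply, smul_eq_mul]
  have hVm : Measurable V := by
    rw [measurable_pi_iff]
    intro x
    simp only [hVa]
    exact Finset.measurable_sum _ fun i _ => (hg i).mul_const _
  have hV0 : ∀ t, ∀ x ∉ W, V t x = 0 := fun t x hx => by
    rw [hVa]
    exact Finset.sum_eq_zero fun i _ => by rw [hv0' i x hx, mul_zero]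
  have hSm : Measurable fun q : Ow d × T => q.1 + V q.2 := measurable_fst.add (hVm.comp measurable_snd)
  refine ⟨fun w t => w + V t, hSm, fun G hG => ?_, fun w hw t l' j hj => ?_⟩
  · have hm' : Measurable fun q : Ow d × T => G (q.1 + V q.2) := hG.comp hSm
    have key : ∀ t, (∀ i, |g i t| ≤ 1) →
        ∫⁻ w, G w ∂lawL d ≤ ENNReal.ofReal (Real.exp 1) * ∫⁻ w, G (w + V t) ∂lawL d := by
      intro t ht
      refine (Pool.Agent.Helper82.AN.law_shift (hV0 t) hG).trans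
        (mul_le_mul_left (ENNReal.ofReal_le_ofReal (Real.exp_le_exp.2 ?_)) _)
      have h3 : ∑ x ∈ W, |V t x| ≤ ∑ x ∈ W, ∑ i : Fin K, |v i x| := by
        refine Finset.sum_le_sum fun x _ => ?_
        rw [hVa]
        refine (Finset.abs_sum_le_sum_abs _ _).trans (Finset.sum_le_sum fun i _ => ?_)
        rw [abs_mul]
        exact mul_le_of_le_one_left (abs_nonneg _) (ht i)
      rw [Finset.sum_comm] at h3
      have h4 : ∑ i : Fin K, ∑ x ∈ W, |v i x| ≤ ∑ _i : Fin K, (1 / 5 : ℝ) := Finset.sum_le_sum fun i _ => hv1' i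
      rw [Finset.sum_const, Finset.card_univ, Fintype.card_fin, nsmul_eq_mul] at h4
      have h5 : (K : ℝ) ≤ 5 := by exact_mod_cast hK
      linarith
    calc ∫⁻ w, G w ∂lawL d = ∫⁻ _t : T, (∫⁻ w, G w ∂lawL d) ∂τ := by
          rw [lintegral_const, measure_univ, mul_one]
      _ ≤ ∫⁻ t : T, ENNReal.ofReal (Real.exp 1) * ∫⁻ w, G (w + V t) ∂lawL d ∂τ := by
          refine lintegral_mono_ae ?_
          filter_upwards [hg1] with t ht
          exact key t ht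
      _ = ENNReal.ofReal (Real.exp 1) * ∫⁻ t : T, ∫⁻ w, G (w + V t) ∂lawL d ∂τ :=
          lintegral_const_mul' _ _ ENNReal.ofReal_ne_top
      _ = _ := by
          congr 1
          exact (lintegral_lintegral_swap (f := fun w t => G (w + V t)) hm'.aemeasurable).symm
  · have h1 : U 0 * eta γ (w + V t) (β l' + j • α) = U 0 * eta γ w (β l' + j • α) +
        ∑ i : Fin K, if l' = l ∧ j = m + i then s * g i t else 0 := by
      rw [Pool.Agent.Helper82.AN.eta_add hw (hV0 t), mul_add]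
      congr 1
      have h2 : ∑ x ∈ W, wt γ x * V t x * bas x (β l' + j • α) =
          ∑ i : Fin K, g i t * ∑ x ∈ W, wt γ x * v i x * bas x (β l' + j • α) := by
        simp only [hVa, Finset.mul_sum, Finset.sum_mul]
        rw [Finset.sum_comm]
        exact Finset.sum_congr rfl fun i _ => Finset.sum_congr rfl fun x _ => by ring
      rw [h2, Finset.mul_sum]
      refine Finset.sum_congr rfl fun i _ => ?_
      have h3 := hv2' i l' ⟨j, hj⟩
      simp only [Fin.mk.injEq] at h3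
      have h4 : U 0 * (g i t * ∑ x ∈ W, wt γ x * v i x * bas x (β l' + j • α)) =
          g i t * (U 0 * ∑ x ∈ W, wt γ x * v i x * bas x (β l' + j • α)) := by ring
      rw [h4, h3]
      split_ifs
      · ring
      · ring
    unfold Pool.Agent.Helper82.AN.sq frc
    show (∑ i : Fin k, U i.succ * e i (β l' + j • α)) + U 0 * eta γ (w + V t) (β l' + j • α) = _
    rw [h1]
    ring

theorem shift5 {γ : ℝ} (hγ : 0 < γ) {k : ℕ} {e : Fin k → Td d → ℝ} {U : Fin (k + 1) → ℝ} (hU : U 0 ≠ 0) {α : Td d} {ρ s : ℝ}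
    {n M N p : ℕ} {β : Fin M → Td d} (hρ : 0 < ρ) (hS : SepR α ρ n M β) (hN : 1 ≤ N) (hp : 1 ≤ p)
    (hint : 2 * ((M * n : ℕ) : ℝ) ≤ (2 * N * ρ) ^ (2 * p)) (hs : 0 ≤ s)
    (hs1 : s ≤ |U 0| * Real.exp (-((p * N : ℝ) ^ γ)) / 20) (l : Fin M) (m : ℕ) (hm : m + 5 ≤ n) :
    ∃ S : Ow d → (Fin 5 → ℝ) → Ow d, (Measurable fun q : Ow d × (Fin 5 → ℝ) => S q.1 q.2) ∧
      (∀ G : Ow d → ℝ≥0∞, Measurable G →
        ∫⁻ w, G w ∂lawL d ≤ ENNReal.ofReal (Real.exp 1) * ∫⁻ w, ∫⁻ t, G (S w t) ∂un5 ∂lawL d) ∧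
      ∀ w, Hw γ w ≠ ∞ → ∀ t,
        (∀ j < n, sq α (frc γ e U (S w t)) (β l) j = up5 (sq α (frc γ e U w) (β l)) m s t j) ∧
        ∀ l', l' ≠ l → ∀ j < n, sq α (frc γ e U (S w t)) (β l') j = sq α (frc γ e U w) (β l') j := by
  obtain ⟨S, h1, h2, h3⟩ := shiftG19 (e := e) hγ hU hρ hS hN hp hint hs hs1 l m 5 le_rfl hm un5
    (fun i t => t i) (fun i => measurable_pi_apply i) un5_ae
  refine ⟨S, h1, h2, fun w hw t => ⟨fun j hj => ?_, fun l' hl' j hj => ?_⟩⟩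
  · rw [h3 w hw t l j hj]
    unfold up5
    congr 1
    by_cases h : m ≤ j ∧ j < m + 5
    · rw [dif_pos h, Finset.sum_eq_single (⟨j - m, by omega⟩ : Fin 5)]
      · rw [if_pos ⟨rfl, by simp only; omega⟩]
      · intro i _ hi
        rw [if_neg]
        rintro ⟨-, h4⟩
        exact hi (Fin.ext (by simp only; omega))
      · intro h4
        exact absurd (Finset.mem_univ _) h4
    · rw [dif_neg h]
      refine Finset.sum_eq_zero fun i _ => ?_
      rw [if_neg]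
      rintro ⟨-, h4⟩
      have := i.isLt
      exact h (by omega)
  · rw [h3 w hw t l' j hj, Finset.sum_eq_zero, add_zero]
    intro i _
    rw [if_neg]
    rintro ⟨h4, -⟩
    exact hl' h4

theorem shift1 {γ : ℝ} (hγ : 0 < γ) {k : ℕ} {e : Fin k → Td d → ℝ} {U : Fin (k + 1) → ℝ} (hU : U 0 ≠ 0) {α : Td d} {ρ s : ℝ}
    {n M N p : ℕ} {β : Fin M → Td d} (hρ : 0 < ρ) (hS : SepR α ρ n M β) (hN : 1 ≤ N) (hp : 1 ≤ p)
    (hint : 2 * ((M * n : ℕ) : ℝ) ≤ (2 * N * ρ) ^ (2 * p)) (hs : 0 ≤ s)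
    (hs1 : s ≤ |U 0| * Real.exp (-((p * N : ℝ) ^ γ)) / 20) (l : Fin M) (m : ℕ) (hm : m < n) :
    ∃ S : Ow d → ℝ → Ow d, (Measurable fun q : Ow d × ℝ => S q.1 q.2) ∧
      (∀ G : Ow d → ℝ≥0∞, Measurable G →
        ∫⁻ w, G w ∂lawL d ≤ ENNReal.ofReal (Real.exp 1) * ∫⁻ w, ∫⁻ t, G (S w t) ∂un ∂lawL d) ∧
      ∀ w, Hw γ w ≠ ∞ → ∀ t,
        (∀ j < n, sq α (frc γ e U (S w t)) (β l) j =
          Function.update (sq α (frc γ e U w) (β l)) m (sq α (frc γ e U w) (β l) m + s * t) j) ∧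
        ∀ l', l' ≠ l → ∀ j < n, sq α (frc γ e U (S w t)) (β l') j = sq α (frc γ e U w) (β l') j := by
  obtain ⟨S, h1, h2, h3⟩ := shiftG19 (e := e) hγ hU hρ hS hN hp hint hs hs1 l m 1 (by norm_num) hm un
    (fun _ t => t) (fun _ => measurable_id) (un_ae.mono fun t ht _ => ht)
  refine ⟨S, h1, h2, fun w hw t => ⟨fun j hj => ?_, fun l' hl' j hj => ?_⟩⟩
  · rw [h3 w hw t l j hj, Fin.sum_univ_one]
    by_cases h : j = m
    · rw [if_pos ⟨rfl, by simp [h]⟩, h, Function.update_self]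
    · rw [if_neg (by rintro ⟨-, h4⟩; exact h (by simpa using h4)), Function.update_of_ne h, add_zero]
  · rw [h3 w hw t l' j hj, Finset.sum_eq_zero, add_zero]
    intro i _
    rw [if_neg]
    rintro ⟨h4, -⟩
    exact hl' h4

end Pool.Agent.Helper19.AF
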